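import Mathlib

set_option autoImplicit false

open Equiv

namespace Pool.Agent.PermEhr

abbrev S4 := Perm (Fin 4)

/-- The embedding of the four permuted coordinates. -/
def io : Fin 4 → Fin 8 := ![0, 1, 2, 3]

/-- The action of `S₄` on `ℤ⁸`: permute the first four coordinates, flip the fifth one
(`y ↦ x₀+x₁+x₂+x₃-y`) for odd permutations, and fix the last three. -/
def act (g : S4) (x : Fin 8 → ℤ) : Fin 8 → ℤ :=
  ![x (io (g⁻¹ 0)), x (io (g⁻¹ 1)), x (io (g⁻¹ 2)), x (io (g⁻¹ 3)),
    if Perm.sign g = 1 then x 4 else x 0 + x 1 + x 2 + x 3 - x 4, x 5, x 6, x 7]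

lemma act_io (g : S4) (x : Fin 8 → ℤ) (i : Fin 4) : act g x (io i) = x (io (g⁻¹ i)) := by
  fin_cases i <;> rfl

lemma act_four (g : S4) (x : Fin 8 → ℤ) :
    act g x 4 = if Perm.sign g = 1 then x 4 else x 0 + x 1 + x 2 + x 3 - x 4 := rfl

lemma sum_io (g : S4) (x : Fin 8 → ℤ) :
    x (io (g⁻¹ 0)) + x (io (g⁻¹ 1)) + x (io (g⁻¹ 2)) + x (io (g⁻¹ 3)) = x 0 + x 1 + x 2 + x 3 := by
  have h := Equiv.sum_comp (g⁻¹ : S4) (fun i => x (io i))
  simpa [Fin.sum_univ_succ, io, add_assoc] using h

lemma act_sum (g : S4) (x : Fin 8 → ℤ) :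
    act g x 0 + act g x 1 + act g x 2 + act g x 3 = x 0 + x 1 + x 2 + x 3 := sum_io g x

lemma act_one (x : Fin 8 → ℤ) : act 1 x = x := by
  ext i
  fin_cases i <;> simp [act, io]

lemma act_mul (g h : S4) (x : Fin 8 → ℤ) : act (g * h) x = act g (act h x) := by
  have key : ∀ i : Fin 4, act (g * h) x (io i) = act g (act h x) (io i) := by
    intro i
    rw [act_io, act_io, act_io, mul_inv_rev]
    rfl
  ext j
  fin_cases j
  · exact key 0
  · exact key 1
  · exact key 2
  · exact key 3
  · change act (g * h) x 4 = act g (act h x) 4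
    rw [act_four, act_four, act_four, act_sum, map_mul]
    rcases Int.units_eq_one_or (Perm.sign g) with hg | hg <;>
    rcases Int.units_eq_one_or (Perm.sign h) with hh | hh <;> simp [hg, hh]
  · rfl
  · rfl
  · rfl

lemma act_add (g : S4) (x y : Fin 8 → ℤ) : act g (x + y) = act g x + act g y := by
  ext j
  fin_cases j <;> try rfl
  change act g (x + y) 4 = act g x 4 + act g y 4
  rw [act_four, act_four, act_four]
  split_ifs
  · rfl
  · simp only [Pi.add_apply]; ring

lemma act_smul (g : S4) (c : ℤ) (x : Fin 8 → ℤ) : act g (c • x) = c • act g x := by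
  ext j
  fin_cases j <;> try rfl
  change act g (c • x) 4 = c • act g x 4
  rw [act_four, act_four]
  split_ifs
  · rfl
  · simp only [Pi.smul_apply, smul_eq_mul]; ring

/-- The linear automorphism of `ℤ⁸` attached to `g`. -/
def lin (g : S4) : (Fin 8 → ℤ) ≃ₗ[ℤ] (Fin 8 → ℤ) where
  toFun := act g
  invFun := act g⁻¹
  map_add' := act_add g
  map_smul' := act_smul g
  left_inv x := by rw [← act_mul, inv_mul_cancel, act_one]
  right_inv x := by rw [← act_mul, mul_inv_cancel, act_one]

@[simp] lemma lin_apply (g : S4) (x : Fin 8 → ℤ) : lin g x = act g x := rfl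

/-- The affine action. -/
def rho : S4 →* ((Fin 8 → ℤ) ≃ᵃ[ℤ] (Fin 8 → ℤ)) where
  toFun g := (lin g).toAffineEquiv
  map_one' := by
    ext x
    simp [act_one]
  map_mul' g h := by
    ext x
    simp [act_mul]

@[simp] lemma rho_apply (g : S4) (x : Fin 8 → ℤ) : rho g x = act g x := rfl

@[simp] lemma rho_linear_apply (g : S4) (x : Fin 8 → ℤ) : (rho g).linear x = act g x := rfl

@[simp] lemma act_zero (g : S4) : act g 0 = 0 := (lin g).map_zero

end Pool.Agent.PermEhr
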