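import Mathlib

set_option autoImplicit false

open PowerSeries

namespace Pool.Agent.PermEhr

/-- The generating series of a graded type. -/
noncomputable def cnt {α : Type} (deg : α → ℕ) : PowerSeries ℤ :=
  PowerSeries.mk fun n => (Nat.card {x : α // deg x = n} : ℤ)

/-- All fibres of the degree are finite. -/
def FinFib {α : Type} (deg : α → ℕ) : Prop := ∀ n, Finite {x : α // deg x = n}

lemma cnt_congr {α β : Type} (e : α ≃ β) {d : α → ℕ} {d' : β → ℕ} (h : ∀ x, d' (e x) = d x) :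
    cnt d = cnt d' := by
  ext n
  simp only [cnt, coeff_mk]
  congr 1
  exact Nat.card_congr (e.subtypeEquiv (fun x => by rw [h]))

lemma finFib_congr {α β : Type} (e : α ≃ β) {d : α → ℕ} {d' : β → ℕ} (h : ∀ x, d' (e x) = d x)
    (hf : FinFib d) : FinFib d' := by
  intro n
  have := hf n
  exact Finite.of_equiv _ (e.subtypeEquiv (p := fun x => d x = n) (q := fun y => d' y = n)
    (fun x => by rw [h]))

/-- The fibre of a sum of degrees. -/
def fibEquiv {α β : Type} (d : α → ℕ) (d' : β → ℕ) (n : ℕ) :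
    {p : α × β // d p.1 + d' p.2 = n} ≃
      (Σ ij : Finset.HasAntidiagonal.antidiagonal n, {x : α // d x = ij.1.1} × {y : β // d' y = ij.1.2}) where
  toFun p := ⟨⟨(d p.1.1, d' p.1.2), Finset.HasAntidiagonal.mem_antidiagonal.2 p.2⟩, ⟨p.1.1, rfl⟩, ⟨p.1.2, rfl⟩⟩
  invFun q := ⟨(q.2.1.1, q.2.2.1), by
    rw [q.2.1.2, q.2.2.2]; exact Finset.HasAntidiagonal.mem_antidiagonal.1 q.1.2⟩
  left_inv p := rfl
  right_inv q := by
    obtain ⟨⟨⟨i, j⟩, hij⟩, ⟨x, hx⟩, ⟨y, hy⟩⟩ := q
    simp only at hx hy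
    subst hx hy
    rfl

lemma finFib_prod {α β : Type} {d : α → ℕ} {d' : β → ℕ} (h : FinFib d) (h' : FinFib d') :
    FinFib (fun p : α × β => d p.1 + d' p.2) := by
  intro n
  have i1 := h
  have i2 := h'
  have : ∀ ij : Finset.HasAntidiagonal.antidiagonal n,
      Finite ({x : α // d x = ij.1.1} × {y : β // d' y = ij.1.2}) := by
    intro ij
    have := i1 ij.1.1
    have := i2 ij.1.2
    infer_instance
  exact Finite.of_equiv _ (fibEquiv d d' n).symm

lemma cnt_prod {α β : Type} {d : α → ℕ} {d' : β → ℕ} (h : FinFib d) (h' : FinFib d') :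
    cnt (fun p : α × β => d p.1 + d' p.2) = cnt d * cnt d' := by
  ext n
  rw [coeff_mul]
  simp only [cnt, coeff_mk]
  have i1 := h
  have i2 := h'
  have : ∀ ij : Finset.HasAntidiagonal.antidiagonal n,
      Finite ({x : α // d x = ij.1.1} × {y : β // d' y = ij.1.2}) := by
    intro ij
    have := i1 ij.1.1
    have := i2 ij.1.2
    infer_instance
  rw [Nat.card_congr (fibEquiv d d' n), Nat.card_sigma]
  push_cast
  rw [← Finset.sum_coe_sort (Finset.HasAntidiagonal.antidiagonal n)]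
  apply Finset.sum_congr rfl
  intro ij _
  rw [Nat.card_prod]
  push_cast
  rfl

lemma finFib_nat (c : ℕ) (hc : 0 < c) : FinFib (fun k : ℕ => c * k) := by
  intro n
  have : Subsingleton {k : ℕ // c * k = n} := by
    constructor
    rintro ⟨a, ha⟩ ⟨b, hb⟩
    ext
    exact Nat.eq_of_mul_eq_mul_left hc (ha.trans hb.symm)
  infer_instance

lemma card_nat_fib (c : ℕ) (hc : 0 < c) (n : ℕ) :
    Nat.card {k : ℕ // c * k = n} = if c ∣ n then 1 else 0 := by
  split_ifs with h
  · obtain ⟨k, rfl⟩ := h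
    rw [Nat.card_eq_one_iff_unique]
    constructor
    · constructor
      rintro ⟨a, ha⟩ ⟨b, hb⟩
      ext
      exact Nat.eq_of_mul_eq_mul_left hc (ha.trans hb.symm)
    · exact ⟨⟨k, rfl⟩⟩
  · rw [Nat.card_eq_zero]
    left
    constructor
    rintro ⟨k, hk⟩
    exact h ⟨k, hk.symm⟩

lemma cnt_nat (c : ℕ) (hc : 0 < c) :
    cnt (fun k : ℕ => c * k) * (1 - (X : PowerSeries ℤ) ^ c) = 1 := by
  ext n
  rw [mul_sub, mul_one, map_sub, coeff_mul_X_pow']
  simp only [cnt, coeff_mk, card_nat_fib c hc, coeff_one]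
  by_cases h0 : n = 0
  · subst h0
    simp [hc.ne']
  · rw [if_neg h0]
    by_cases hcn : c ≤ n
    · rw [if_pos hcn]
      have : c ∣ n - c ↔ c ∣ n := by
        constructor
        · intro h
          have := Nat.dvd_add h (dvd_refl c)
          rwa [Nat.sub_add_cancel hcn] at this
        · intro h
          exact Nat.dvd_sub h (dvd_refl c)
      simp only [this, sub_self]
    · rw [if_neg hcn, sub_zero]
      have : ¬ c ∣ n := fun h => hcn (Nat.le_of_dvd (Nat.pos_of_ne_zero h0) h)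
      simp [this]

/-- Pairs `(a, y)` with `y ≤ deg a`: the series `∑ (n+1) c(n) Xⁿ`. -/
lemma cnt_under {α : Type} (d : α → ℕ) (hf : FinFib d) :
    cnt (fun p : {p : α × ℕ // p.2 ≤ d p.1} => d p.1.1)
      = PowerSeries.mk fun n => ((n : ℤ) + 1) * (Nat.card {x : α // d x = n} : ℤ) := by
  ext n
  simp only [cnt, coeff_mk]
  have e : {p : {p : α × ℕ // p.2 ≤ d p.1} // d p.1.1 = n} ≃
      {x : α // d x = n} × Fin (n + 1) :=
    { toFun := fun p => ⟨⟨p.1.1.1, p.2⟩, ⟨p.1.1.2, by have := p.1.2; rw [p.2] at this; omega⟩⟩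
      invFun := fun q => ⟨⟨(q.1.1, q.2.1), by have := q.2.2; have h := q.1.2; simp only; omega⟩,
        q.1.2⟩
      left_inv := fun p => rfl
      right_inv := fun q => rfl }
  have := hf n
  rw [Nat.card_congr e, Nat.card_prod, Nat.card_fin]
  push_cast
  ring

lemma cnt_under_deriv {α : Type} (d : α → ℕ) (hf : FinFib d) :
    cnt (fun p : {p : α × ℕ // p.2 ≤ d p.1} => d p.1.1)
      = PowerSeries.derivative ℤ (X * cnt d) := by
  rw [cnt_under d hf]
  ext n
  rw [coeff_mk, PowerSeries.coeff_derivative]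
  rw [coeff_succ_X_mul]
  simp only [cnt, coeff_mk]
  ring

end Pool.Agent.PermEhr
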