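import Pool.Agent.MP_769135_co.Poly
import Pool.Agent.MP_769135_co.Cnt

set_option autoImplicit false

open PowerSeries Equiv

namespace Pool.Agent.PermEhr

lemma act_eq_iff (g : S4) (x : Fin 8 → ℤ) :
    act g x = x ↔ (∀ i, x (io (g⁻¹ i)) = x (io i)) ∧
      (Perm.sign g = 1 ∨ 2 * x 4 = x 0 + x 1 + x 2 + x 3) := by
  constructor
  · intro h
    refine ⟨fun i => by rw [← act_io g x i, h], ?_⟩
    have h4 := congrFun h 4
    rw [act_four] at h4
    split_ifs at h4 with hs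
    · exact Or.inl hs
    · right; linarith
  · rintro ⟨h1, h2⟩
    ext j
    fin_cases j
    · exact h1 0
    · exact h1 1
    · exact h1 2
    · exact h1 3
    · change act g x 4 = x 4
      rw [act_four]
      split_ifs with hs
      · rfl
      · rcases h2 with h2 | h2
        · exact absurd h2 hs
        · linarith
    · rfl
    · rfl
    · rfl

/-- The condition on the first five coordinates. -/
def QP (g : S4) (p : (Fin 4 → ℕ) × ℕ) : Prop :=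
  (∀ i, p.1 (g⁻¹ i) = p.1 i) ∧ p.2 ≤ p.1 0 + p.1 1 + p.1 2 + p.1 3 ∧
    (Perm.sign g = 1 ∨ 2 * p.2 = p.1 0 + p.1 1 + p.1 2 + p.1 3)

/-- The first five coordinates. -/
abbrev Q (g : S4) : Type := {p : (Fin 4 → ℕ) × ℕ // QP g p}

/-- Their degree. -/
def dQ (g : S4) (p : Q g) : ℕ := p.1.1 0 + p.1.1 1 + p.1.1 2 + p.1.1 3

/-- The remaining parameters. -/
abbrev RR : Type := Fin 6 × (ℕ × (ℕ × (ℕ × ℕ)))

/-- The height of a box point. -/
def ht (c : Fin 6) : ℕ := (c : ℕ) - 2 * ((c : ℕ) / 3)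

/-- The degree of the remaining parameters. -/
def dR (r : RR) : ℕ := ht r.1 + (1 * r.2.1 + (1 * r.2.2.1 + (1 * r.2.2.2.1 + 1 * r.2.2.2.2)))

/-- The lattice point with given parameters. -/
def pnt (p : (Fin 4 → ℕ) × ℕ) (r : RR) : Fin 8 → ℤ :=
  ![(p.1 0 : ℤ), (p.1 1 : ℤ), (p.1 2 : ℤ), (p.1 3 : ℤ), (p.2 : ℤ), (r.2.2.1 : ℤ) - r.2.1,
    (r.2.2.2.1 : ℤ) - 2 * r.2.1 - (((r.1 : ℕ) / 3 : ℕ) : ℤ),
    (r.2.2.2.2 : ℤ) - 2 * r.2.1 - (((r.1 : ℕ) / 3 : ℕ) : ℤ)]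

lemma pnt_io (p : (Fin 4 → ℕ) × ℕ) (r : RR) (i : Fin 4) : pnt p r (io i) = p.1 i := by
  fin_cases i <;> rfl

lemma pnt_mem (g : S4) (p : Q g) (r : RR) (m : ℕ) (h : dQ g p + dR r = m) :
    Ineq (m : ℤ) (pnt p.1 r) ∧ act g (pnt p.1 r) = pnt p.1 r := by
  obtain ⟨⟨a, y⟩, hp1, hp2, hp3⟩ := p
  obtain ⟨c, t, u, v, w⟩ := r
  have hc := c.2
  subst h
  constructor
  · simp only [Ineq, pnt, dQ, dR, ht]
    simp only [Fin.isValue, Matrix.cons_val]
    simp only at hp2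
    omega
  · rw [act_eq_iff]
    refine ⟨fun i => ?_, ?_⟩
    · rw [pnt_io, pnt_io, hp1 i]
    · rcases hp3 with h | h
      · exact Or.inl h
      · right
        simp only [pnt, Fin.isValue, Matrix.cons_val]
        simp only at h
        omega

/-- The parametrisation of the fixed lattice points. -/
def phi (g : S4) (m : ℕ) (q : {q : Q g × RR // dQ g q.1 + dR q.2 = m}) :
    {x : Fin 8 → ℤ // Ineq (m : ℤ) x ∧ act g x = x} :=
  ⟨pnt q.1.1.1 q.1.2, pnt_mem g q.1.1 q.1.2 m q.2⟩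

lemma phi_inj (g : S4) (m : ℕ) : Function.Injective (phi g m) := by
  rintro ⟨⟨⟨⟨a, y⟩, hp⟩, ⟨c, t, u, v, w⟩⟩, hq⟩ ⟨⟨⟨⟨a', y'⟩, hp'⟩, ⟨c', t', u', v', w'⟩⟩, hq'⟩ h
  have h1 := congrArg Subtype.val h
  simp only [phi] at h1
  have h2 := fun j => congrFun h1 j
  have hc := c.2
  have hc' := c'.2
  simp only [dQ, dR, ht] at hq hq'
  have e0 := h2 0
  have e1 := h2 1
  have e2 := h2 2
  have e3 := h2 3
  have e4 := h2 4
  have e5 := h2 5
  have e6 := h2 6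
  have e7 := h2 7
  simp only [pnt, Fin.isValue, Matrix.cons_val] at e0 e1 e2 e3 e4 e5 e6 e7
  have f0 : a 0 = a' 0 := by exact_mod_cast e0
  have f1 : a 1 = a' 1 := by exact_mod_cast e1
  have f2 : a 2 = a' 2 := by exact_mod_cast e2
  have f3 : a 3 = a' 3 := by exact_mod_cast e3
  have f4 : y = y' := by exact_mod_cast e4
  have hcc : (c : ℕ) = c' := by omega
  have ht' : t = t' := by omega
  have hu : u = u' := by omega
  have hv : v = v' := by omega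
  have hw : w = w' := by omega
  have ha : a = a' := by
    ext i
    fin_cases i
    · exact f0
    · exact f1
    · exact f2
    · exact f3
  have hcc' : c = c' := Fin.ext hcc
  subst hcc' ht' hu hv hw ha f4
  rfl

lemma exists_phi (g : S4) (m : ℕ) (x : Fin 8 → ℤ) (hx : Ineq (m : ℤ) x) (hg : act g x = x) :
    ∃ q, (phi g m q).1 = x := by
  rw [act_eq_iff] at hg
  obtain ⟨hg1, hg2⟩ := hg
  obtain ⟨⟨x0, x1, x2, x3⟩, ⟨x4, x4'⟩, xN, x5, x6, x7⟩ := hx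
  generalize hN : (m : ℤ) - (x 0 + x 1 + x 2 + x 3) - (x 5 + x 6 + x 7) = N at xN x5 x6 x7
  have hxio : ∀ i : Fin 4, 0 ≤ x (io i) := by
    intro i; fin_cases i
    · exact x0
    · exact x1
    · exact x2
    · exact x3
  let p : (Fin 4 → ℕ) × ℕ := (fun i => (x (io i)).toNat, (x 4).toNat)
  have p0 : (p.1 0 : ℤ) = x 0 := Int.toNat_of_nonneg x0
  have p1 : (p.1 1 : ℤ) = x 1 := Int.toNat_of_nonneg x1
  have p2 : (p.1 2 : ℤ) = x 2 := Int.toNat_of_nonneg x2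
  have p3 : (p.1 3 : ℤ) = x 3 := Int.toNat_of_nonneg x3
  have p4 : (p.2 : ℤ) = x 4 := Int.toNat_of_nonneg x4
  have hp : QP g p := by
    refine ⟨fun i => ?_, ?_, ?_⟩
    · change (x (io (g⁻¹ i))).toNat = (x (io i)).toNat
      rw [hg1 i]
    · omega
    · rcases hg2 with h | h
      · exact Or.inl h
      · right; omega
  let r : RR := (⟨(N % 6).toNat, by omega⟩, (N / 6).toNat, (x 5 + N / 6).toNat,
    (x 6 + N / 3).toNat, (x 7 + N / 3).toNat)
  have r1 : ((r.1 : ℕ) : ℤ) = N % 6 := Int.toNat_of_nonneg (by omega)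
  have r2 : (r.2.1 : ℤ) = N / 6 := Int.toNat_of_nonneg (by omega)
  have r3 : (r.2.2.1 : ℤ) = x 5 + N / 6 := Int.toNat_of_nonneg (by omega)
  have r4 : (r.2.2.2.1 : ℤ) = x 6 + N / 3 := Int.toNat_of_nonneg (by omega)
  have r5 : (r.2.2.2.2 : ℤ) = x 7 + N / 3 := Int.toNat_of_nonneg (by omega)
  refine ⟨⟨(⟨p, hp⟩, r), ?_⟩, ?_⟩
  · simp only [dQ, dR, ht]
    omega
  · simp only [phi]
    ext j
    fin_cases j
    · exact p0
    · exact p1
    · exact p2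
    · exact p3
    · exact p4
    · change (r.2.2.1 : ℤ) - r.2.1 = x 5
      omega
    · change (r.2.2.2.1 : ℤ) - 2 * r.2.1 - (((r.1 : ℕ) / 3 : ℕ) : ℤ) = x 6
      omega
    · change (r.2.2.2.2 : ℤ) - 2 * r.2.1 - (((r.1 : ℕ) / 3 : ℕ) : ℤ) = x 7
      omega

lemma phi_surj (g : S4) (m : ℕ) : Function.Surjective (phi g m) := by
  rintro ⟨x, hx, hg⟩
  obtain ⟨q, hq⟩ := exists_phi g m x hx hg
  exact ⟨q, Subtype.ext hq⟩

lemma card_fix (g : S4) (m : ℕ) :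
    ({x : Fin 8 → ℤ | Ineq (m : ℤ) x ∧ act g x = x}.ncard : ℤ)
      = coeff m (cnt (fun q : Q g × RR => dQ g q.1 + dR q.2)) := by
  rw [cnt, coeff_mk, Nat.card_congr (Equiv.ofBijective _ ⟨phi_inj g m, phi_surj g m⟩)]
  rfl

lemma finFib_Q (g : S4) : FinFib (dQ g) := by
  intro n
  let f : {p : Q g // dQ g p = n} → (Fin 4 → Fin (n + 1)) × Fin (n + 1) := fun p =>
    (fun i => ⟨p.1.1.1 i, by
      have h := p.2
      simp only [dQ] at h
      fin_cases i <;> simp <;> omega⟩, ⟨p.1.1.2, by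
      have h := p.2
      have h' := p.1.2.2.1
      simp only [dQ] at h
      omega⟩)
  apply Finite.of_injective f
  rintro ⟨⟨⟨a, y⟩, hp⟩, hq⟩ ⟨⟨⟨a', y'⟩, hp'⟩, hq'⟩ h
  simp only [f, Prod.mk.injEq, Fin.mk.injEq] at h
  obtain ⟨h1, h2⟩ := h
  have : a = a' := by
    ext i
    have := congrFun h1 i
    exact congrArg Fin.val this
  subst this h2
  rfl

lemma finFib_ht : FinFib ht := by
  intro n
  infer_instance

lemma finFib_R1 : FinFib (fun p : ℕ × ℕ => 1 * p.1 + 1 * p.2) :=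
  finFib_prod (finFib_nat 1 one_pos) (finFib_nat 1 one_pos)

lemma finFib_R2 : FinFib (fun p : ℕ × (ℕ × ℕ) => 1 * p.1 + (1 * p.2.1 + 1 * p.2.2)) :=
  finFib_prod (finFib_nat 1 one_pos) finFib_R1

lemma finFib_R3 : FinFib (fun p : ℕ × (ℕ × (ℕ × ℕ)) =>
    1 * p.1 + (1 * p.2.1 + (1 * p.2.2.1 + 1 * p.2.2.2))) :=
  finFib_prod (finFib_nat 1 one_pos) finFib_R2

lemma finFib_R : FinFib dR := finFib_prod finFib_ht finFib_R3

/-- The geometric series in `X ^ c`. -/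
noncomputable def geo (c : ℕ) : PowerSeries ℤ := cnt (fun k : ℕ => c * k)

lemma cnt_R : cnt dR = cnt ht * geo 1 ^ 4 := by
  have h3 : cnt dR = cnt ht * cnt (fun p : ℕ × (ℕ × (ℕ × ℕ)) =>
    1 * p.1 + (1 * p.2.1 + (1 * p.2.2.1 + 1 * p.2.2.2))) := cnt_prod finFib_ht finFib_R3
  have h2 : cnt (fun p : ℕ × (ℕ × (ℕ × ℕ)) =>
    1 * p.1 + (1 * p.2.1 + (1 * p.2.2.1 + 1 * p.2.2.2))) = geo 1 * cnt
      (fun p : ℕ × (ℕ × ℕ) => 1 * p.1 + (1 * p.2.1 + 1 * p.2.2)) :=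
    cnt_prod (finFib_nat 1 one_pos) finFib_R2
  have h1 : cnt (fun p : ℕ × (ℕ × ℕ) => 1 * p.1 + (1 * p.2.1 + 1 * p.2.2)) = geo 1 *
      cnt (fun p : ℕ × ℕ => 1 * p.1 + 1 * p.2) := cnt_prod (finFib_nat 1 one_pos) finFib_R1
  have h0 : cnt (fun p : ℕ × ℕ => 1 * p.1 + 1 * p.2) = geo 1 * geo 1 :=
    cnt_prod (finFib_nat 1 one_pos) (finFib_nat 1 one_pos)
  rw [h3, h2, h1, h0]
  ring

lemma cnt_ht : cnt ht = 1 + (X + X) + (X ^ 2 + X ^ 2) + X ^ 3 := by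
  ext n
  rw [cnt, coeff_mk, Nat.card_eq_fintype_card, Fintype.card_subtype]
  have hn : n = 0 ∨ n = 1 ∨ n = 2 ∨ n = 3 ∨ 4 ≤ n := by omega
  rcases hn with rfl | rfl | rfl | rfl | hn
  · simp [coeff_X_pow, coeff_X, coeff_one]; decide
  · simp [coeff_X_pow, coeff_X, coeff_one]; decide
  · simp [coeff_X_pow, coeff_X, coeff_one]; decide
  · simp [coeff_X_pow, coeff_X, coeff_one]; decide
  · have : (Finset.univ.filter fun c : Fin 6 => ht c = n) = ∅ := by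
      rw [Finset.filter_eq_empty_iff]
      intro c _
      have : ∀ c : Fin 6, ht c < 4 := by decide
      have := this c
      omega
    rw [this]
    simp [coeff_X_pow, coeff_X, coeff_one]
    omega

/-- The generating series of the fixed points. -/
lemma cnt_total (g : S4) :
    cnt (fun q : Q g × RR => dQ g q.1 + dR q.2)
      = cnt (dQ g) * ((1 + (X + X) + (X ^ 2 + X ^ 2) + X ^ 3) * geo 1 ^ 4) := by
  rw [cnt_prod (finFib_Q g) finFib_R, cnt_R, cnt_ht]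

end Pool.Agent.PermEhr
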