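import Pool.Agent.MP_769135_co.Act

set_option autoImplicit false

open Equiv Polynomial

namespace Pool.Agent.PermEhr

/-- Permutation matrix. -/
def Pm (g : S4) : Matrix (Fin 4) (Fin 4) ℤ := Matrix.of fun i j => if g⁻¹ i = j then 1 else 0

/-- Characteristic determinant of the permutation matrix. -/
noncomputable def pd (g : S4) : ℤ[X] := Matrix.det (1 - (X : ℤ[X]) • (Pm g).map C)

/-- the eight by eight matrix -/
noncomputable def Mm (g : S4) : Matrix (Fin 8) (Fin 8) ℤ :=
  LinearMap.toMatrix' ((rho g).linear : (Fin 8 → ℤ) →ₗ[ℤ] (Fin 8 → ℤ))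

lemma Mm_apply (g : S4) (i j : Fin 8) : Mm g i j = act g (Pi.single j 1) i := by
  rw [Mm, LinearMap.toMatrix'_apply]
  rfl

/-- the lower left block -/
def Rm (g : S4) : Matrix (Fin 4) (Fin 4) ℤ :=
  Matrix.of fun i _ => if i = 0 then (if Perm.sign g = 1 then 0 else 1) else 0

/-- the diagonal of the lower right block -/
def dv (g : S4) : Fin 4 → ℤ := ![(Perm.sign g : ℤ), 1, 1, 1]

def e8 : Fin 4 ⊕ Fin 4 ≃ Fin 8 := finSumFinEquiv

lemma e8_inl (i : Fin 4) : e8 (Sum.inl i) = io i := by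
  fin_cases i <;> rfl

def io' : Fin 4 → Fin 8 := ![4, 5, 6, 7]

lemma e8_inr (i : Fin 4) : e8 (Sum.inr i) = io' i := by
  fin_cases i <;> rfl

lemma Mm_block (g : S4) :
    (Mm g).submatrix e8 e8 = Matrix.fromBlocks (Pm g) 0 (Rm g) (Matrix.diagonal (dv g)) := by
  have hio : Function.Injective io := by decide
  ext i j
  rw [Matrix.submatrix_apply, Mm_apply]
  rcases i with i | i <;> rcases j with j | j
  · rw [e8_inl, e8_inl, act_io, Matrix.fromBlocks_apply₁₁, Pm, Matrix.of_apply, Pi.single_apply]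
    simp only [hio.eq_iff]
  · rw [e8_inl, e8_inr, act_io, Matrix.fromBlocks_apply₁₂, Pi.single_apply]
    have : ∀ i j : Fin 4, io i ≠ io' j := by decide
    simp [this]
  · rw [e8_inl, e8_inr, Matrix.fromBlocks_apply₂₁]
    rcases Int.units_eq_one_or (Perm.sign g) with hg | hg <;>
    fin_cases i <;> fin_cases j <;> simp [act, io, io', Rm, hg, Pi.single_apply]
  · rw [e8_inr, e8_inr, Matrix.fromBlocks_apply₂₂]
    rcases Int.units_eq_one_or (Perm.sign g) with hg | hg <;>
    fin_cases i <;> fin_cases j <;> simp [act, io', dv, hg, Pi.single_apply]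

lemma det_Mm (g : S4) :
    Matrix.det (1 - (X : ℤ[X]) • (Mm g).map C)
      = pd g * ((1 - C (Perm.sign g : ℤ) * X) * (1 - X) ^ 3) := by
  rw [← Matrix.det_submatrix_equiv_self e8]
  have h : (1 - (X : ℤ[X]) • (Mm g).map C).submatrix e8 e8
      = Matrix.fromBlocks (1 - (X : ℤ[X]) • (Pm g).map C) 0 (- (X : ℤ[X]) • (Rm g).map C)
          (Matrix.diagonal (fun i => 1 - X * C (dv g i))) := by
    have hb := Mm_block g
    ext1 i j
    have hij : Mm g (e8 i) (e8 j) = (Matrix.fromBlocks (Pm g) 0 (Rm g) (Matrix.diagonal (dv g))) i j := by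
      rw [← hb]; rfl
    simp only [Matrix.submatrix_apply, Matrix.sub_apply, Matrix.smul_apply, Matrix.map_apply, hij]
    rcases i with i | i <;> rcases j with j | j
    · simp [Matrix.one_apply]
    · simp [Matrix.one_apply]
    · simp [Matrix.one_apply]
    · by_cases h : i = j
      · subst h; simp
      · simp [Matrix.one_apply, h]
  rw [h, Matrix.det_fromBlocks_zero₁₂, Matrix.det_diagonal, pd]
  congr 1
  simp [Fin.prod_univ_succ, dv]
  ring

lemma Pm_conj (h g : S4) : Pm (h * g * h⁻¹) = (Pm g).submatrix (h⁻¹ : S4) (h⁻¹ : S4) := by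
  ext i j
  simp only [Pm, Matrix.of_apply, Matrix.submatrix_apply, mul_inv_rev, inv_inv, Perm.mul_apply]
  congr 1
  rw [← Equiv.Perm.eq_inv_iff_eq]

lemma pd_conj (h g : S4) : pd (h * g * h⁻¹) = pd g := by
  rw [pd, pd, Pm_conj, ← Matrix.det_submatrix_equiv_self (h⁻¹ : S4) (1 - (X : ℤ[X]) • (Pm g).map C)]
  congr 1
  ext1 i j
  simp [Matrix.one_apply]

end Pool.Agent.PermEhr
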