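import Pool.Agent.MP_769135_co.Table

set_option autoImplicit false

open Equiv

namespace Pool.Agent.PermEhr

def ca : S4 := r4
def cb : S4 := swap 0 1 * swap 2 3 * swap 1 2
def cc : S4 := swap 0 1 * swap 1 2 * swap 0 1 * swap 2 3 * swap 1 2
def ct : S4 := r3

lemma w1 : r1 = ca * (cb * (cb * (cb * ca))) := by decide
lemma w2 : r1 = cc * (ca * ca) := by decide
lemma w3 : r1 = ca * (ct * (ca * ca)) := by decide
lemma w4 : r1 = cb * (cb * cc) := by decide
lemma w5 : r1 = cb * (cb * (ct * cb)) := by decide
lemma w6 : r1 = cc * (ct * (ct * (cc * (cc * ct)))) := by decide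

open Classical in
/-- The indicator of being fixed. -/
noncomputable def ind {Y : Type} [MulAction S4 Y] (g : S4) (x : Y) : ℕ := if g • x = x then 1 else 0

lemma ind_le {Y : Type} [MulAction S4 Y] (x : Y) :
    ind ca x + ind cb x + ind cc x + ind ct x ≤ 1 + 3 * ind r1 x := by
  by_cases h : r1 • x = x
  · have e : ind r1 x = 1 := by rw [ind, if_pos h]
    have b : ∀ g : S4, ind g x ≤ 1 := by
      intro g
      unfold ind
      split_ifs <;> omega
    have := b ca
    have := b cb
    have := b cc
    have := b ct
    omega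
  · by_cases ha : ca • x = x <;> by_cases hb : cb • x = x <;> by_cases hc : cc • x = x <;>
    by_cases ht : ct • x = x
    all_goals first
      | (exfalso; apply h; rw [w1]; simp only [mul_smul, ha, hb]; done)
      | (exfalso; apply h; rw [w2]; simp only [mul_smul, ha, hc]; done)
      | (exfalso; apply h; rw [w3]; simp only [mul_smul, ha, ht]; done)
      | (exfalso; apply h; rw [w4]; simp only [mul_smul, hb, hc]; done)
      | (exfalso; apply h; rw [w5]; simp only [mul_smul, hb, ht]; done)
      | (exfalso; apply h; rw [w6]; simp only [mul_smul, hc, ht]; done)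
      | (simp [ind, ha, hb, hc, ht]; done)

lemma no_action (Y : Type) [Finite Y] [MulAction S4 Y]
    (H0 : Nat.card {x : Y // (1 : S4) • x = x} = 24)
    (H1 : Nat.card {x : Y // r1 • x = x} = 6)
    (Ha : Nat.card {x : Y // ca • x = x} = 12)
    (Hb : Nat.card {x : Y // cb • x = x} = 12)
    (Hc : Nat.card {x : Y // cc • x = x} = 12)
    (Ht : Nat.card {x : Y // ct • x = x} = 12) : False := by
  classical
  have := Fintype.ofFinite Y
  have hs : ∀ g : S4, ∑ x : Y, ind g x = Nat.card {x : Y // g • x = x} := by
    intro g
    rw [Nat.card_eq_fintype_card, Fintype.card_subtype, Finset.card_filter]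
    apply Finset.sum_congr rfl
    intro x _
    unfold ind
    split_ifs <;> rfl
  have hc : Fintype.card Y = 24 := by
    rw [← H0, Nat.card_eq_fintype_card, Fintype.card_subtype]
    simp
  have key := Finset.sum_le_sum (s := Finset.univ) (fun (x : Y) _ => ind_le x)
  rw [Finset.sum_add_distrib, Finset.sum_add_distrib, Finset.sum_add_distrib,
    Finset.sum_add_distrib, ← Finset.mul_sum, hs, hs, hs, hs, hs, H1, Ha, Hb, Hc, Ht] at key
  simp [hc] at key

end Pool.Agent.PermEhr
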