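import Pool.Agent.MP_769135_co.Genuine
import Pool.Agent.MP_769135_co.NoAction

set_option autoImplicit false

open Equiv Pointwise

namespace Pool.Agent.PermEhr

lemma set_eq (g : S4) (m : ℕ) :
    {x : Fin 8 → ℤ | (fun k => (x k : ℝ)) ∈ ((m : ℕ) : ℝ) • Pt ∧
      (rho g).linear x + (m : ℕ) • (rho g 0) = x} = {x : Fin 8 → ℤ | Ineq (m : ℤ) x ∧ act g x = x} := by
  ext x
  rw [Set.mem_ofPred_eq, Set.mem_ofPred_eq, rho_linear_apply, rho_apply, act_zero, smul_zero, add_zero]
  exact and_congr (cst_mem m x) Iff.rfl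

/-- The equivariant `h*`-coefficients of the polytope are given by `T`. -/
lemma formula (i : ℕ) (g : S4) :
    ∑ j ∈ Finset.range (i + 1),
          Polynomial.coeff ((1 - Polynomial.X) *
              Matrix.det (1 - (Polynomial.X : Polynomial ℤ) •
                ((LinearMap.toMatrix'
                  ((rho g).linear : (Fin 8 → ℤ) →ₗ[ℤ] (Fin 8 → ℤ))).map Polynomial.C))) j *
            (({x : Fin 8 → ℤ | (fun k => (x k : ℝ)) ∈ ((i - j : ℕ) : ℝ) • Pt ∧
                (rho g).linear x + (i - j : ℕ) • (rho g 0) = x}.ncard : ℕ) : ℤ) = T i g := by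
  have hM : LinearMap.toMatrix' ((rho g).linear : (Fin 8 → ℤ) →ₗ[ℤ] (Fin 8 → ℤ)) = Mm g := rfl
  rw [hM, ← coeff_hs, ← hs_eq, PowerSeries.coeff_mul]
  rw [Finset.Nat.sum_antidiagonal_eq_sum_range_succ (fun a b =>
    PowerSeries.coeff a (((1 - Polynomial.X) * Matrix.det (1 - (Polynomial.X : Polynomial ℤ) •
      (Mm g).map Polynomial.C) : Polynomial ℤ) : PowerSeries ℤ) * PowerSeries.coeff b (Ls g)) i]
  apply Finset.sum_congr rfl
  intro j _
  rw [set_eq, Polynomial.coeff_coe, Ls, PowerSeries.coeff_mk]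

/-- The total. -/
def Tot (g : S4) : ℤ := ∑ i ∈ Finset.range 9, T i g

set_option maxRecDepth 100000 in
lemma tot0 : Tot 1 = 24 := by decide
set_option maxRecDepth 100000 in
lemma tot1 : Tot r1 = 6 := by decide
set_option maxRecDepth 100000 in
lemma tota : Tot ca = 12 := by decide
set_option maxRecDepth 100000 in
lemma totb : Tot cb = 12 := by decide
set_option maxRecDepth 100000 in
lemma totc : Tot cc = 12 := by decide
set_option maxRecDepth 100000 in
lemma tott : Tot ct = 12 := by decide

end Pool.Agent.PermEhr
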