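import Pool.Agent.MP_769135_co.Table

set_option autoImplicit false

open Equiv Matrix

namespace Pool.Agent.PermEhr

/-- Characters of integral matrix representations. -/
def Genuine (χ : S4 → ℤ) : Prop :=
  ∃ (n : Type) (_ : Fintype n) (_ : DecidableEq n) (r : S4 →* Matrix n n ℤ), ∀ g, trace (r g) = χ g

lemma genuine_fdrep {χ : S4 → ℤ} (h : Genuine χ) :
    ∃ V : FDRep ℂ S4, ∀ g : S4, V.character g = ((χ g : ℤ) : ℂ) := by
  obtain ⟨n, _, _, r, hr⟩ := h
  let r' : S4 →* Matrix n n ℂ :=
    ((Int.castRingHom ℂ).mapMatrix : Matrix n n ℤ →+* Matrix n n ℂ).toMonoidHom.comp r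
  let ρ : Representation ℂ S4 (n → ℂ) :=
    ((Matrix.toLinAlgEquiv' : Matrix n n ℂ ≃ₐ[ℂ] ((n → ℂ) →ₗ[ℂ] (n → ℂ))) :
      Matrix n n ℂ →* ((n → ℂ) →ₗ[ℂ] (n → ℂ))).comp r'
  refine ⟨FDRep.of ρ, fun g => ?_⟩
  have h1 : (FDRep.of ρ).character g = LinearMap.trace ℂ (n → ℂ) (Matrix.toLin' (r' g)) := rfl
  rw [h1, Matrix.trace_toLin'_eq, ← hr g]
  simp [r', Matrix.trace]

lemma genuine_zero : Genuine (fun _ => 0) :=
  ⟨Fin 0, inferInstance, inferInstance, 1, fun g => by simp⟩

lemma genuine_one : Genuine (fun _ => 1) :=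
  ⟨Fin 1, inferInstance, inferInstance, 1, fun g => by simp⟩

lemma genuine_add {χ ψ : S4 → ℤ} (h : Genuine χ) (h' : Genuine ψ) :
    Genuine (fun g => χ g + ψ g) := by
  obtain ⟨n, _, _, r, hr⟩ := h
  obtain ⟨m, _, _, s, hs⟩ := h'
  refine ⟨n ⊕ m, inferInstance, inferInstance,
    { toFun := fun g => Matrix.fromBlocks (r g) 0 0 (s g)
      map_one' := by rw [map_one, map_one, Matrix.fromBlocks_one]
      map_mul' := fun g h => by
        rw [map_mul, map_mul, Matrix.fromBlocks_multiply]
        simp }, fun g => ?_⟩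
  change trace (Matrix.fromBlocks (r g) 0 0 (s g)) = _
  have e : trace (Matrix.fromBlocks (r g) 0 0 (s g)) = trace (r g) + trace (s g) := by
    simp [Matrix.trace, Fintype.sum_sum_type]
  rw [e, hr, hs]

lemma genuine_sg {χ : S4 → ℤ} (h : Genuine χ) : Genuine (fun g => sg g * χ g) := by
  obtain ⟨n, _, _, r, hr⟩ := h
  refine ⟨n, inferInstance, inferInstance,
    { toFun := fun g => sg g • r g
      map_one' := by simp [sg]
      map_mul' := fun g h => by
        simp only [sg, map_mul, Units.val_mul]
        rw [Matrix.smul_mul, Matrix.mul_smul, smul_smul] }, fun g => ?_⟩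
  change trace (sg g • r g) = _
  rw [Matrix.trace_smul, hr, smul_eq_mul]

lemma genuine_perm {Y : Type} [Fintype Y] [DecidableEq Y] (a : S4 → Y → Y) (h1 : ∀ y, a 1 y = y)
    (hm : ∀ g h y, a (g * h) y = a g (a h y)) :
    Genuine (fun g => ((Finset.univ.filter fun y : Y => a g y = y).card : ℤ)) := by
  refine ⟨Y, inferInstance, inferInstance,
    { toFun := fun g => Matrix.of fun x y => if a g y = x then 1 else 0
      map_one' := by
        ext x y
        simp only [h1, Matrix.of_apply, Matrix.one_apply, eq_comm]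
      map_mul' := fun g h => by
        ext x y
        rw [Matrix.mul_apply]
        simp only [Matrix.of_apply, hm]
        rw [Finset.sum_eq_single (a h y)]
        · simp
        · intro b _ hb
          rw [if_neg (show ¬ a h y = b from fun hh => hb hh.symm), mul_zero]
        · intro hb
          exact absurd (Finset.mem_univ _) hb }, fun g => ?_⟩
  change ∑ x, (if a g x = x then (1 : ℤ) else 0) = _
  rw [Finset.sum_boole]

lemma genuine_fx : Genuine fx :=
  genuine_perm (fun g i => g i) (fun _ => rfl) (fun _ _ _ => rfl)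

lemma genuine_f6 : Genuine f6 :=
  genuine_perm cj (fun y => by simp [cj]) (fun g h y => by
    apply Subtype.ext
    simp [cj, mul_assoc])

/-- Permutation matrices. -/
def P4 (g : S4) : Matrix (Fin 4) (Fin 4) ℤ := Matrix.of fun i j => if g j = i then 1 else 0

def Um : Matrix (Fin 4) (Fin 3) ℤ := !![-1, -1, -1; 1, 0, 0; 0, 1, 0; 0, 0, 1]
def Tm : Matrix (Fin 3) (Fin 4) ℤ := !![0, 1, 0, 0; 0, 0, 1, 0; 0, 0, 0, 1]

lemma P4_mul (g h : S4) : P4 (g * h) = P4 g * P4 h := by
  ext x y
  rw [Matrix.mul_apply]
  simp only [P4, Matrix.of_apply, Perm.mul_apply]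
  rw [Finset.sum_eq_single (h y)]
  · rw [if_pos rfl, mul_one]
    rfl
  · intro b _ hb
    rw [if_neg (show ¬ h y = b from fun hh => hb hh.symm), mul_zero]
  · intro hb
    exact absurd (Finset.mem_univ _) hb

set_option maxRecDepth 100000 in
lemma key_UT : ∀ g : S4, Um * Tm * (P4 g * Um) = P4 g * Um := by
  decide

set_option maxRecDepth 100000 in
lemma trace_std : ∀ g : S4, trace (Tm * P4 g * Um) = fx g - 1 := by
  decide

lemma std_one : Tm * P4 1 * Um = 1 := by
  decide

lemma genuine_std : Genuine (fun g => fx g - 1) := by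
  refine ⟨Fin 3, inferInstance, inferInstance,
    { toFun := fun g => Tm * P4 g * Um
      map_one' := std_one
      map_mul' := fun g h => by
        rw [P4_mul]
        have := key_UT h
        calc Tm * (P4 g * P4 h) * Um = Tm * P4 g * (P4 h * Um) := by
              simp only [Matrix.mul_assoc]
          _ = Tm * P4 g * (Um * Tm * (P4 h * Um)) := by rw [this]
          _ = Tm * P4 g * Um * (Tm * P4 h * Um) := by simp only [Matrix.mul_assoc] },
    fun g => trace_std g⟩

lemma genuine_T (i : ℕ) : Genuine (T i) := by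
  have hn : i = 0 ∨ i = 1 ∨ i = 2 ∨ i = 3 ∨ i = 4 ∨ 5 ≤ i := by omega
  rcases hn with rfl | rfl | rfl | rfl | rfl | hn
  · exact genuine_one
  · have := genuine_add (genuine_add genuine_one genuine_one) (genuine_sg genuine_std)
    exact this
  · have := genuine_add (genuine_add genuine_one genuine_one) genuine_f6
    exact this
  · have := genuine_add (genuine_add (genuine_add genuine_one genuine_one) genuine_one)
      (genuine_sg genuine_fx)
    exact this
  · have h := genuine_add (genuine_add genuine_one genuine_one) (genuine_sg genuine_one)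
    have e : T 4 = fun g => (1 : ℤ) + 1 + sg g * 1 := by
      ext g
      rw [mul_one]
      rfl
    rw [e]
    exact h
  · have e : T i = fun _ => 0 := by
      ext g
      rw [T, if_neg (by omega), if_neg (by omega), if_neg (by omega), if_neg (by omega),
        if_neg (by omega)]
    rw [e]
    exact genuine_zero

end Pool.Agent.PermEhr
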