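import Pool.Agent.MP_769135_co.Act

set_option autoImplicit false

open Pointwise

namespace Pool.Agent.PermEhr

/-- The twelve vertices. -/
def vtx : Fin 12 → (Fin 8 → ℤ) :=
  ![![1, 0, 0, 0, 0, 0, 0, 0], ![0, 1, 0, 0, 0, 0, 0, 0], ![0, 0, 1, 0, 0, 0, 0, 0],
    ![0, 0, 0, 1, 0, 0, 0, 0], ![1, 0, 0, 0, 1, 0, 0, 0], ![0, 1, 0, 0, 1, 0, 0, 0],
    ![0, 0, 1, 0, 1, 0, 0, 0], ![0, 0, 0, 1, 1, 0, 0, 0], ![0, 0, 0, 0, 0, -1, -2, -2],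
    ![0, 0, 0, 0, 0, 1, 0, 0], ![0, 0, 0, 0, 0, 0, 1, 0], ![0, 0, 0, 0, 0, 0, 0, 1]]

/-- The vertex set. -/
def verts : Finset (Fin 8 → ℤ) := Finset.univ.image vtx

/-- The cast of a lattice point. -/
def cst (x : Fin 8 → ℤ) : Fin 8 → ℝ := fun k => (x k : ℝ)

/-- Inequality description of the dilate by `m`, over an ordered ring. -/
def Ineq {R : Type} [Ring R] [LE R] (m : R) (x : Fin 8 → R) : Prop :=
  (0 ≤ x 0 ∧ 0 ≤ x 1 ∧ 0 ≤ x 2 ∧ 0 ≤ x 3) ∧ (0 ≤ x 4 ∧ x 4 ≤ x 0 + x 1 + x 2 + x 3) ∧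
  0 ≤ m - (x 0 + x 1 + x 2 + x 3) - (x 5 + x 6 + x 7) ∧
  0 ≤ 6 * x 5 + (m - (x 0 + x 1 + x 2 + x 3) - (x 5 + x 6 + x 7)) ∧
  0 ≤ 3 * x 6 + (m - (x 0 + x 1 + x 2 + x 3) - (x 5 + x 6 + x 7)) ∧
  0 ≤ 3 * x 7 + (m - (x 0 + x 1 + x 2 + x 3) - (x 5 + x 6 + x 7))

/-- The polytope. -/
def Pt : Set (Fin 8 → ℝ) := convexHull ℝ (cst '' (verts : Set (Fin 8 → ℤ)))

lemma convex_ineq : Convex ℝ {x : Fin 8 → ℝ | Ineq 1 x} := by
  rintro x ⟨⟨x0, x1, x2, x3⟩, ⟨x4, x4'⟩, xN, x5, x6, x7⟩ y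
    ⟨⟨y0, y1, y2, y3⟩, ⟨y4, y4'⟩, yN, y5, y6, y7⟩ a b ha hb hab
  have hb' : b = 1 - a := by linarith
  subst hb'
  simp only [Set.mem_ofPred_eq, Ineq, Pi.add_apply, Pi.smul_apply, smul_eq_mul]
  refine ⟨⟨?_, ?_, ?_, ?_⟩, ⟨?_, ?_⟩, ?_, ?_, ?_, ?_⟩
  · nlinarith [mul_nonneg ha x0, mul_nonneg hb y0]
  · nlinarith [mul_nonneg ha x1, mul_nonneg hb y1]
  · nlinarith [mul_nonneg ha x2, mul_nonneg hb y2]
  · nlinarith [mul_nonneg ha x3, mul_nonneg hb y3]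
  · nlinarith [mul_nonneg ha x4, mul_nonneg hb y4]
  · nlinarith [mul_nonneg ha (sub_nonneg.2 x4'), mul_nonneg hb (sub_nonneg.2 y4')]
  · nlinarith [mul_nonneg ha xN, mul_nonneg hb yN]
  · nlinarith [mul_nonneg ha x5, mul_nonneg hb y5]
  · nlinarith [mul_nonneg ha x6, mul_nonneg hb y6]
  · nlinarith [mul_nonneg ha x7, mul_nonneg hb y7]

/-- Barycentric weights. -/
noncomputable def wt (x : Fin 8 → ℝ) : Fin 12 → ℝ :=
  ![x 0 * (1 - x 4 / (x 0 + x 1 + x 2 + x 3)), x 1 * (1 - x 4 / (x 0 + x 1 + x 2 + x 3)),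
    x 2 * (1 - x 4 / (x 0 + x 1 + x 2 + x 3)), x 3 * (1 - x 4 / (x 0 + x 1 + x 2 + x 3)),
    x 0 * (x 4 / (x 0 + x 1 + x 2 + x 3)), x 1 * (x 4 / (x 0 + x 1 + x 2 + x 3)),
    x 2 * (x 4 / (x 0 + x 1 + x 2 + x 3)), x 3 * (x 4 / (x 0 + x 1 + x 2 + x 3)),
    (1 - (x 0 + x 1 + x 2 + x 3) - (x 5 + x 6 + x 7)) / 6,
    (6 * x 5 + (1 - (x 0 + x 1 + x 2 + x 3) - (x 5 + x 6 + x 7))) / 6,
    (3 * x 6 + (1 - (x 0 + x 1 + x 2 + x 3) - (x 5 + x 6 + x 7))) / 3,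
    (3 * x 7 + (1 - (x 0 + x 1 + x 2 + x 3) - (x 5 + x 6 + x 7))) / 3]

lemma sum12 {M : Type} [AddCommMonoid M] (f : Fin 12 → M) :
    ∑ i, f i = f 0 + f 1 + f 2 + f 3 + f 4 + f 5 + f 6 + f 7 + f 8 + f 9 + f 10 + f 11 := by
  simp only [Fin.sum_univ_succ, Fin.sum_univ_zero]
  simp only [add_zero, ← add_assoc]
  rfl

lemma Pt_eq : Pt = {x : Fin 8 → ℝ | Ineq 1 x} := by
  apply Set.Subset.antisymm
  · apply convexHull_min _ convex_ineq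
    rintro _ ⟨v, hv, rfl⟩
    rw [Finset.mem_coe, verts, Finset.mem_image] at hv
    obtain ⟨i, -, rfl⟩ := hv
    fin_cases i <;> simp [Ineq, cst, vtx] <;> norm_num
  · intro x hx
    have hx' := hx
    obtain ⟨⟨x0, x1, x2, x3⟩, ⟨x4, x4'⟩, xN, x5, x6, x7⟩ := hx'
    have hk : 0 ≤ x 0 + x 1 + x 2 + x 3 := by linarith
    have hq : 0 ≤ x 4 / (x 0 + x 1 + x 2 + x 3) := div_nonneg x4 hk
    have hq' : 0 ≤ 1 - x 4 / (x 0 + x 1 + x 2 + x 3) := by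
      rw [sub_nonneg]
      exact div_le_one_of_le₀ x4' hk
    have hqk : (x 0 + x 1 + x 2 + x 3) * (x 4 / (x 0 + x 1 + x 2 + x 3)) = x 4 := by
      rcases eq_or_lt_of_le hk with h | h
      · rw [← h, zero_mul]
        linarith
      · field_simp
    have hw : ∀ i ∈ (Finset.univ : Finset (Fin 12)), 0 ≤ wt x i := by
      intro i _
      fin_cases i
      · exact mul_nonneg x0 hq'
      · exact mul_nonneg x1 hq'
      · exact mul_nonneg x2 hq'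
      · exact mul_nonneg x3 hq'
      · exact mul_nonneg x0 hq
      · exact mul_nonneg x1 hq
      · exact mul_nonneg x2 hq
      · exact mul_nonneg x3 hq
      · exact div_nonneg xN (by norm_num)
      · exact div_nonneg x5 (by norm_num)
      · exact div_nonneg x6 (by norm_num)
      · exact div_nonneg x7 (by norm_num)
    have hw1 : ∑ i, wt x i = 1 := by
      rw [sum12]
      change x 0 * (1 - x 4 / (x 0 + x 1 + x 2 + x 3)) + x 1 * (1 - x 4 / (x 0 + x 1 + x 2 + x 3))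
        + x 2 * (1 - x 4 / (x 0 + x 1 + x 2 + x 3)) + x 3 * (1 - x 4 / (x 0 + x 1 + x 2 + x 3))
        + x 0 * (x 4 / (x 0 + x 1 + x 2 + x 3)) + x 1 * (x 4 / (x 0 + x 1 + x 2 + x 3))
        + x 2 * (x 4 / (x 0 + x 1 + x 2 + x 3)) + x 3 * (x 4 / (x 0 + x 1 + x 2 + x 3))
        + (1 - (x 0 + x 1 + x 2 + x 3) - (x 5 + x 6 + x 7)) / 6
        + (6 * x 5 + (1 - (x 0 + x 1 + x 2 + x 3) - (x 5 + x 6 + x 7))) / 6
        + (3 * x 6 + (1 - (x 0 + x 1 + x 2 + x 3) - (x 5 + x 6 + x 7))) / 3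
        + (3 * x 7 + (1 - (x 0 + x 1 + x 2 + x 3) - (x 5 + x 6 + x 7))) / 3 = 1
      ring
    have key : x = ∑ i, wt x i • cst (vtx i) := by
      generalize hqq : x 4 / (x 0 + x 1 + x 2 + x 3) = q at hq hq' hqk hw hw1
      rw [sum12]
      ext j
      fin_cases j <;>
      simp only [wt, vtx, cst, Pi.add_apply, Pi.smul_apply, smul_eq_mul, hqq] <;>
      simp <;> linarith
    rw [key]
    apply (convex_convexHull ℝ _).sum_mem hw hw1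
    intro i _
    apply subset_convexHull
    exact ⟨vtx i, by simp [verts], rfl⟩

lemma mem_Pt (x : Fin 8 → ℝ) : x ∈ Pt ↔ Ineq 1 x := by
  rw [Pt_eq]; rfl

lemma Pt_nonempty : Pt.Nonempty := by
  refine ⟨0, ?_⟩
  rw [mem_Pt]
  simp [Ineq]

lemma mem_smul_Pt (m : ℕ) (x : Fin 8 → ℝ) : x ∈ (m : ℝ) • Pt ↔ Ineq (m : ℝ) x := by
  rcases Nat.eq_zero_or_pos m with rfl | hm
  · rw [Nat.cast_zero, Set.zero_smul_set Pt_nonempty, Set.mem_zero]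
    constructor
    · rintro rfl
      simp [Ineq]
    · rintro ⟨⟨x0, x1, x2, x3⟩, ⟨x4, x4'⟩, xN, x5, x6, x7⟩
      ext j
      fin_cases j <;> simp <;> linarith
  · have hm' : (0 : ℝ) < m := by exact_mod_cast hm
    rw [Set.mem_smul_set_iff_inv_smul_mem₀ hm'.ne', mem_Pt]
    obtain ⟨y, rfl⟩ : ∃ y : Fin 8 → ℝ, x = (m : ℝ) • y :=
      ⟨(m : ℝ)⁻¹ • x, by rw [smul_smul, mul_inv_cancel₀ hm'.ne', one_smul]⟩
    rw [smul_smul, inv_mul_cancel₀ hm'.ne', one_smul]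
    simp only [Ineq, Pi.smul_apply, smul_eq_mul]
    have e1 : (m : ℝ) - (m * y 0 + m * y 1 + m * y 2 + m * y 3) - (m * y 5 + m * y 6 + m * y 7)
        = m * (1 - (y 0 + y 1 + y 2 + y 3) - (y 5 + y 6 + y 7)) := by ring
    have e2 : ∀ a b c : ℝ, a * ((m : ℝ) * b) + m * c = m * (a * b + c) := fun a b c => by ring
    rw [e1, e2, e2, e2, mul_nonneg_iff_of_pos_left hm', mul_nonneg_iff_of_pos_left hm',
      mul_nonneg_iff_of_pos_left hm', mul_nonneg_iff_of_pos_left hm', mul_nonneg_iff_of_pos_left hm',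
      mul_nonneg_iff_of_pos_left hm', mul_nonneg_iff_of_pos_left hm', mul_nonneg_iff_of_pos_left hm',
      mul_nonneg_iff_of_pos_left hm', ← mul_add, ← mul_add, ← mul_add, mul_le_mul_iff_right₀ hm']

lemma cst_mem (m : ℕ) (x : Fin 8 → ℤ) : cst x ∈ (m : ℝ) • Pt ↔ Ineq (m : ℤ) x := by
  rw [mem_smul_Pt]
  simp only [Ineq, cst]
  norm_cast

lemma interior_Pt : (interior Pt).Nonempty := by
  let U : Set (Fin 8 → ℝ) := {x | (0 < x 0 ∧ 0 < x 1 ∧ 0 < x 2 ∧ 0 < x 3) ∧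
    (0 < x 4 ∧ x 4 < x 0 + x 1 + x 2 + x 3) ∧
    0 < 1 - (x 0 + x 1 + x 2 + x 3) - (x 5 + x 6 + x 7) ∧
    0 < 6 * x 5 + (1 - (x 0 + x 1 + x 2 + x 3) - (x 5 + x 6 + x 7)) ∧
    0 < 3 * x 6 + (1 - (x 0 + x 1 + x 2 + x 3) - (x 5 + x 6 + x 7)) ∧
    0 < 3 * x 7 + (1 - (x 0 + x 1 + x 2 + x 3) - (x 5 + x 6 + x 7))}
  have hU : IsOpen U := by
    refine IsOpen.and (IsOpen.and ?_ (IsOpen.and ?_ (IsOpen.and ?_ ?_))) (IsOpen.and (IsOpen.and ?_ ?_)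
      (IsOpen.and ?_ (IsOpen.and ?_ (IsOpen.and ?_ ?_))))
    all_goals exact isOpen_lt (by fun_prop) (by fun_prop)
  have hUP : U ⊆ Pt := by
    rintro x ⟨⟨x0, x1, x2, x3⟩, ⟨x4, x4'⟩, xN, x5, x6, x7⟩
    rw [mem_Pt]
    exact ⟨⟨x0.le, x1.le, x2.le, x3.le⟩, ⟨x4.le, x4'.le⟩, xN.le, x5.le, x6.le, x7.le⟩
  refine ⟨![1/16, 1/16, 1/16, 1/16, 1/8, 0, 0, 0], interior_maximal hUP hU ?_⟩
  change (_ ∧ _ ∧ _ ∧ _) ∧ (_ ∧ _) ∧ _ ∧ _ ∧ _ ∧ _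
  simp
  norm_num

lemma ineq_act (g : S4) (m : ℤ) (x : Fin 8 → ℤ) (h : Ineq m x) : Ineq m (act g x) := by
  obtain ⟨⟨x0, x1, x2, x3⟩, ⟨x4, x4'⟩, xN, x5, x6, x7⟩ := h
  have hx : ∀ i : Fin 4, 0 ≤ x (io i) := by
    intro i; fin_cases i
    · exact x0
    · exact x1
    · exact x2
    · exact x3
  have hs := act_sum g x
  have h5 : act g x 5 = x 5 := rfl
  have h6 : act g x 6 = x 6 := rfl
  have h7 : act g x 7 = x 7 := rfl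
  have h4 := act_four g x
  refine ⟨⟨hx _, hx _, hx _, hx _⟩, ?_, ?_, ?_, ?_, ?_⟩
  · rw [hs, h4]
    split_ifs
    · exact ⟨x4, x4'⟩
    · constructor <;> linarith
  · rw [hs, h5, h6, h7]; exact xN
  · rw [hs, h5, h6, h7]; exact x5
  · rw [hs, h5, h6, h7]; exact x6
  · rw [hs, h5, h6, h7]; exact x7

lemma cst_mem_one (x : Fin 8 → ℤ) : cst x ∈ Pt ↔ Ineq (1 : ℤ) x := by
  have := cst_mem 1 x
  rwa [Nat.cast_one, one_smul, Nat.cast_one] at this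

lemma Pt_act (g : S4) (x : Fin 8 → ℤ) (h : cst x ∈ Pt) : cst (rho g x) ∈ Pt := by
  rw [cst_mem_one] at h ⊢
  exact ineq_act g 1 x h

end Pool.Agent.PermEhr
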