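import Pool.Agent.MP_769135_co.Det
import Pool.Agent.MP_769135_co.Count

set_option autoImplicit false

open Equiv

namespace Pool.Agent.PermEhr

def r1 : S4 := swap 0 1
def r2 : S4 := swap 0 1 * swap 2 3
def r3 : S4 := swap 0 1 * swap 1 2
def r4 : S4 := swap 0 1 * swap 1 2 * swap 2 3

lemma sg1 : Perm.sign r1 = -1 := by decide
lemma sg2 : Perm.sign r2 = 1 := by decide
lemma sg3 : Perm.sign r3 = 1 := by decide
lemma sg4 : Perm.sign r4 = -1 := by decide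

set_option maxRecDepth 100000 in
lemma classes : ∀ g : S4, ∃ h : S4, g = h * 1 * h⁻¹ ∨ g = h * r1 * h⁻¹ ∨ g = h * r2 * h⁻¹ ∨
    g = h * r3 * h⁻¹ ∨ g = h * r4 * h⁻¹ := by
  decide

lemma Pm0 : Pm 1 = !![1, 0, 0, 0; 0, 1, 0, 0; 0, 0, 1, 0; 0, 0, 0, 1] := by
  decide

lemma Pm1 : Pm r1 = !![0, 1, 0, 0; 1, 0, 0, 0; 0, 0, 1, 0; 0, 0, 0, 1] := by
  decide

lemma Pm2 : Pm r2 = !![0, 1, 0, 0; 1, 0, 0, 0; 0, 0, 0, 1; 0, 0, 1, 0] := by
  decide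

lemma Pm3 : Pm r3 = !![0, 0, 1, 0; 1, 0, 0, 0; 0, 1, 0, 0; 0, 0, 0, 1] := by
  decide

lemma Pm4 : Pm r4 = !![0, 0, 0, 1; 1, 0, 0, 0; 0, 1, 0, 0; 0, 0, 1, 0] := by
  decide

open Polynomial in
lemma pd0 : pd 1 = (1 - X) ^ 4 := by
  rw [pd, Pm0]
  simp [Matrix.det_succ_row_zero, Fin.sum_univ_succ, Matrix.one_apply]
  ring

open Polynomial in
lemma pd1 : pd r1 = (1 - X ^ 2) * (1 - X) ^ 2 := by
  rw [pd, Pm1]
  simp [Matrix.det_succ_row_zero, Fin.sum_univ_succ, Matrix.one_apply, Fin.succAbove]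
  ring

open Polynomial in
lemma pd2 : pd r2 = (1 - X ^ 2) ^ 2 := by
  rw [pd, Pm2]
  simp [Matrix.det_succ_row_zero, Fin.sum_univ_succ, Matrix.one_apply, Fin.succAbove]
  ring

open Polynomial in
lemma pd3 : pd r3 = (1 - X ^ 3) * (1 - X) := by
  rw [pd, Pm3]
  simp [Matrix.det_succ_row_zero, Fin.sum_univ_succ, Matrix.one_apply, Fin.succAbove]
  ring

open Polynomial in
lemma pd4 : pd r4 = 1 - X ^ 4 := by
  rw [pd, Pm4]
  simp [Matrix.det_succ_row_zero, Fin.sum_univ_succ, Matrix.one_apply, Fin.succAbove]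
  ring

end Pool.Agent.PermEhr
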