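import Pool.Agent.MP_769135_co.Reps

set_option autoImplicit false

open PowerSeries Equiv

namespace Pool.Agent.PermEhr

/-- The equivariant `h*`-series in closed form. -/
noncomputable def hs (g : S4) : PowerSeries ℤ :=
  cnt (dQ g) * ((pd g : Polynomial ℤ) : PowerSeries ℤ) * (1 - C (Perm.sign g : ℤ) * X) *
    (1 + (X + X) + (X ^ 2 + X ^ 2) + X ^ 3)

/-- The equivariant Ehrhart series. -/
noncomputable def Ls (g : S4) : PowerSeries ℤ :=
  PowerSeries.mk fun m => (({x : Fin 8 → ℤ | Ineq (m : ℤ) x ∧ act g x = x}.ncard : ℕ) : ℤ)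

lemma Ls_eq (g : S4) :
    Ls g = cnt (dQ g) * ((1 + (X + X) + (X ^ 2 + X ^ 2) + X ^ 3) * geo 1 ^ 4) := by
  rw [← cnt_total]
  ext m
  rw [Ls, coeff_mk, card_fix]

lemma geo_one : geo 1 * (1 - X) = 1 := by
  have := cnt_nat 1 one_pos
  rwa [pow_one] at this

lemma Dn_eq (g : S4) :
    (((1 - Polynomial.X) * Matrix.det (1 - (Polynomial.X : Polynomial ℤ) • (Mm g).map Polynomial.C) :
      Polynomial ℤ) : PowerSeries ℤ)
      = (1 - X) * (((pd g : Polynomial ℤ) : PowerSeries ℤ) *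
        ((1 - C (Perm.sign g : ℤ) * X) * (1 - X) ^ 3)) := by
  rw [det_Mm]
  generalize pd g = p
  generalize (Perm.sign g : ℤ) = e
  rw [Polynomial.coe_mul, Polynomial.coe_mul, Polynomial.coe_mul, Polynomial.coe_pow,
    Polynomial.coe_sub, Polynomial.coe_sub, Polynomial.coe_mul, Polynomial.coe_C,
    Polynomial.coe_X, Polynomial.coe_one]

lemma hs_eq (g : S4) :
    (((1 - Polynomial.X) * Matrix.det (1 - (Polynomial.X : Polynomial ℤ) • (Mm g).map Polynomial.C) :
      Polynomial ℤ) : PowerSeries ℤ) * Ls g = hs g := by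
  rw [Dn_eq, Ls_eq, hs]
  have h2 := geo_one
  have h3 : geo 1 ^ 4 * (1 - X) ^ 4 = (1 : PowerSeries ℤ) := by
    rw [← mul_pow, h2, one_pow]
  linear_combination (cnt (dQ g) * ((pd g : Polynomial ℤ) : PowerSeries ℤ) * (1 - C (Perm.sign g : ℤ) * X) *
    (1 + (X + X) + (X ^ 2 + X ^ 2) + X ^ 3)) * h3

lemma sum_conj (h : S4) (a : Fin 4 → ℕ) :
    a (h⁻¹ 0) + a (h⁻¹ 1) + a (h⁻¹ 2) + a (h⁻¹ 3) = a 0 + a 1 + a 2 + a 3 := by
  have := Equiv.sum_comp (h⁻¹ : S4) a
  simpa [Fin.sum_univ_succ, add_assoc] using this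

/-- relabelling -/
def relab (h : S4) : ((Fin 4 → ℕ) × ℕ) ≃ ((Fin 4 → ℕ) × ℕ) :=
  Equiv.prodCongr (Equiv.arrowCongr h (Equiv.refl ℕ)) (Equiv.refl ℕ)

lemma relab_fst (h : S4) (p : (Fin 4 → ℕ) × ℕ) (i : Fin 4) : (relab h p).1 i = p.1 (h⁻¹ i) := rfl

lemma relab_snd (h : S4) (p : (Fin 4 → ℕ) × ℕ) : (relab h p).2 = p.2 := rfl

lemma QP_conj (h g : S4) (p : (Fin 4 → ℕ) × ℕ) : QP g p ↔ QP (h * g * h⁻¹) (relab h p) := by
  unfold QP
  have hs : Perm.sign (h * g * h⁻¹) = Perm.sign g := by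
    rw [map_mul, map_mul, map_inv, mul_comm (Perm.sign h), mul_assoc, mul_inv_cancel, mul_one]
  rw [relab_fst, relab_fst, relab_fst, relab_fst, relab_snd, sum_conj, hs]
  refine and_congr ?_ Iff.rfl
  constructor
  · intro H i
    rw [relab_fst, relab_fst]
    have := H (h⁻¹ i)
    rw [← this]
    simp [mul_assoc]
  · intro H i
    have := H (h i)
    rw [relab_fst, relab_fst] at this
    simpa [mul_assoc] using this

lemma cntQ_conj (h g : S4) : cnt (dQ (h * g * h⁻¹)) = cnt (dQ g) := by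
  symm
  apply cnt_congr ((relab h).subtypeEquiv (QP_conj h g))
  intro p
  exact sum_conj h p.1.1

lemma hs_conj (h g : S4) : hs (h * g * h⁻¹) = hs g := by
  have h1 : Perm.sign (h * g * h⁻¹) = Perm.sign g := by
    rw [map_mul, map_mul, map_inv, mul_comm (Perm.sign h), mul_assoc, mul_inv_cancel, mul_one]
  rw [hs, hs, cntQ_conj, pd_conj, h1]

/-- Invariant exponent vectors. -/
abbrev AA (g : S4) : Type := {a : Fin 4 → ℕ // ∀ i, a (g⁻¹ i) = a i}

def dA (g : S4) (a : AA g) : ℕ := a.1 0 + a.1 1 + a.1 2 + a.1 3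

lemma finFib_A (g : S4) : FinFib (dA g) := by
  intro n
  let f : {p : AA g // dA g p = n} → (Fin 4 → Fin (n + 1)) := fun p =>
    (fun i => ⟨p.1.1 i, by
      have h := p.2
      simp only [dA] at h
      fin_cases i <;> simp <;> omega⟩)
  apply Finite.of_injective f
  rintro ⟨⟨a, hp⟩, hq⟩ ⟨⟨a', hp'⟩, hq'⟩ h
  simp only [f] at h
  have : a = a' := by
    ext i
    have := congrFun h i
    exact congrArg Fin.val this
  subst this
  rfl

lemma cntQ_even (g : S4) (hg : Perm.sign g = 1) :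
    cnt (dQ g) = PowerSeries.derivative ℤ (X * cnt (dA g)) := by
  rw [← cnt_under_deriv (dA g) (finFib_A g)]
  let e : {p : AA g × ℕ // p.2 ≤ dA g p.1} ≃ Q g :=
    { toFun := fun p => ⟨(p.1.1.1, p.1.2), p.1.1.2, p.2, Or.inl hg⟩
      invFun := fun q => ⟨(⟨q.1.1, q.2.1⟩, q.1.2), q.2.2.1⟩
      left_inv := fun p => rfl
      right_inv := fun q => rfl }
  symm
  exact cnt_congr e (fun p => rfl)

lemma cntA0 : cnt (dA 1) = geo 1 ^ 4 := by
  have h2 : cnt (fun p : ℕ × (ℕ × (ℕ × ℕ)) =>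
    1 * p.1 + (1 * p.2.1 + (1 * p.2.2.1 + 1 * p.2.2.2))) = geo 1 * cnt
      (fun p : ℕ × (ℕ × ℕ) => 1 * p.1 + (1 * p.2.1 + 1 * p.2.2)) :=
    cnt_prod (finFib_nat 1 one_pos) finFib_R2
  have h1 : cnt (fun p : ℕ × (ℕ × ℕ) => 1 * p.1 + (1 * p.2.1 + 1 * p.2.2)) = geo 1 *
      cnt (fun p : ℕ × ℕ => 1 * p.1 + 1 * p.2) := cnt_prod (finFib_nat 1 one_pos) finFib_R1
  have h0 : cnt (fun p : ℕ × ℕ => 1 * p.1 + 1 * p.2) = geo 1 * geo 1 :=
    cnt_prod (finFib_nat 1 one_pos) (finFib_nat 1 one_pos)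
  have h3 : cnt (fun p : ℕ × (ℕ × (ℕ × ℕ)) =>
    1 * p.1 + (1 * p.2.1 + (1 * p.2.2.1 + 1 * p.2.2.2))) = cnt (dA 1) := by
    let f : ℕ × (ℕ × (ℕ × ℕ)) → AA 1 := fun p => ⟨![p.1, p.2.1, p.2.2.1, p.2.2.2], fun i => rfl⟩
    have hf : Function.Bijective f := by
      constructor
      · rintro ⟨a, b, c, d⟩ ⟨a', b', c', d'⟩ h
        have h' := congrArg Subtype.val h
        have e0 : a = a' := congrFun h' 0
        have e1 : b = b' := congrFun h' 1
        have e2 : c = c' := congrFun h' 2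
        have e3 : d = d' := congrFun h' 3
        subst e0 e1 e2 e3
        rfl
      · rintro ⟨a, ha⟩
        refine ⟨(a 0, a 1, a 2, a 3), Subtype.ext ?_⟩
        ext i
        fin_cases i <;> rfl
    refine cnt_congr (Equiv.ofBijective f hf) ?_
    rintro ⟨a, b, c, d⟩
    change a + b + c + d = 1 * a + (1 * b + (1 * c + 1 * d))
    ring
  rw [← h3, h2, h1, h0]
  ring

lemma cntA2 : cnt (dA r2) = geo 2 ^ 2 := by
  have h0 : cnt (fun p : ℕ × ℕ => 2 * p.1 + 2 * p.2) = geo 2 * geo 2 :=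
    cnt_prod (finFib_nat 2 two_pos) (finFib_nat 2 two_pos)
  have h3 : cnt (fun p : ℕ × ℕ => 2 * p.1 + 2 * p.2) = cnt (dA r2) := by
    let f : ℕ × ℕ → AA r2 := fun p => ⟨![p.1, p.1, p.2, p.2], fun i => by fin_cases i <;> rfl⟩
    have hf : Function.Bijective f := by
      constructor
      · rintro ⟨a, b⟩ ⟨a', b'⟩ h
        have h' := congrArg Subtype.val h
        have e0 : a = a' := congrFun h' 0
        have e1 : b = b' := congrFun h' 2
        subst e0 e1
        rfl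
      · rintro ⟨a, ha⟩
        refine ⟨(a 0, a 2), Subtype.ext ?_⟩
        have i1 : a 1 = a 0 := ha 0
        have i2 : a 3 = a 2 := ha 2
        ext i
        fin_cases i
        · rfl
        · exact i1.symm
        · rfl
        · exact i2.symm
    refine cnt_congr (Equiv.ofBijective f hf) ?_
    rintro ⟨a, b⟩
    change a + a + b + b = 2 * a + 2 * b
    ring
  rw [← h3, h0]
  ring

lemma cntA3 : cnt (dA r3) = geo 3 * geo 1 := by
  have h0 : cnt (fun p : ℕ × ℕ => 3 * p.1 + 1 * p.2) = geo 3 * geo 1 :=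
    cnt_prod (finFib_nat 3 three_pos) (finFib_nat 1 one_pos)
  have h3 : cnt (fun p : ℕ × ℕ => 3 * p.1 + 1 * p.2) = cnt (dA r3) := by
    let f : ℕ × ℕ → AA r3 := fun p => ⟨![p.1, p.1, p.1, p.2], fun i => by fin_cases i <;> rfl⟩
    have hf : Function.Bijective f := by
      constructor
      · rintro ⟨a, b⟩ ⟨a', b'⟩ h
        have h' := congrArg Subtype.val h
        have e0 : a = a' := congrFun h' 0
        have e1 : b = b' := congrFun h' 3
        subst e0 e1
        rfl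
      · rintro ⟨a, ha⟩
        refine ⟨(a 0, a 3), Subtype.ext ?_⟩
        have i1 : a (r3⁻¹ 1) = a 1 := ha 1
        have i2 : a (r3⁻¹ 2) = a 2 := ha 2
        have j1 : r3⁻¹ 1 = 0 := by decide
        have j2 : r3⁻¹ 2 = 1 := by decide
        rw [j1] at i1
        rw [j2] at i2
        ext i
        fin_cases i
        · rfl
        · exact i1
        · exact i1.trans i2
        · rfl
    refine cnt_congr (Equiv.ofBijective f hf) ?_
    rintro ⟨a, b⟩
    change a + a + a + b = 3 * a + 1 * b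
    ring
  rw [← h3, h0]

lemma cntQ4 : cnt (dQ r4) = geo 4 := by
  let f : ℕ → Q r4 := fun p => ⟨(![p, p, p, p], 2 * p), fun i => by fin_cases i <;> rfl, by
    change 2 * p ≤ p + p + p + p
    omega, by
    right
    change 2 * (2 * p) = p + p + p + p
    ring⟩
  have hf : Function.Bijective f := by
    constructor
    · intro a a' h
      have h' := congrArg Subtype.val h
      exact congrFun (congrArg Prod.fst h') 0
    · rintro ⟨⟨a, y⟩, h1, h2, h3⟩
      refine ⟨a 0, Subtype.ext ?_⟩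
      have i1 : a (r4⁻¹ 1) = a 1 := h1 1
      have i2 : a (r4⁻¹ 2) = a 2 := h1 2
      have i3 : a (r4⁻¹ 3) = a 3 := h1 3
      have j1 : r4⁻¹ 1 = 0 := by decide
      have j2 : r4⁻¹ 2 = 1 := by decide
      have j3 : r4⁻¹ 3 = 2 := by decide
      rw [j1] at i1
      rw [j2] at i2
      rw [j3] at i3
      have hs : Perm.sign r4 ≠ 1 := by decide
      have h3' := h3.resolve_left hs
      simp only at h3'
      refine Prod.ext ?_ ?_
      · ext i
        fin_cases i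
        · rfl
        · exact i1
        · exact i1.trans i2
        · exact (i1.trans i2).trans i3
      · change 2 * a 0 = y
        omega
  symm
  refine cnt_congr (Equiv.ofBijective f hf) ?_
  intro a
  change a + a + a + a = 4 * a
  ring

lemma cnt_two : cnt (fun e : Fin 2 => 2 * (e : ℕ)) = 1 + X ^ 2 := by
  ext n
  rw [cnt, coeff_mk, Nat.card_eq_fintype_card, Fintype.card_subtype]
  have hn : n = 0 ∨ n = 1 ∨ n = 2 ∨ 3 ≤ n := by omega
  rcases hn with rfl | rfl | rfl | hn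
  · simp [coeff_X_pow, coeff_one] <;> decide
  · simp [coeff_X_pow, coeff_one] <;> decide
  · simp [coeff_X_pow, coeff_one] <;> decide
  · have : (Finset.univ.filter fun c : Fin 2 => 2 * (c : ℕ) = n) = ∅ := by
      rw [Finset.filter_eq_empty_iff]
      intro c _
      omega
    rw [this]
    simp [coeff_X_pow, coeff_one]
    omega

lemma finFib_S0 : FinFib (fun e : Fin 2 => 2 * (e : ℕ)) := by
  intro n
  infer_instance

lemma finFib_S1 : FinFib (fun p : ℕ × Fin 2 => 2 * p.1 + 2 * (p.2 : ℕ)) :=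
  finFib_prod (finFib_nat 2 two_pos) finFib_S0

lemma finFib_S2 : FinFib (fun p : ℕ × (ℕ × Fin 2) => 2 * p.1 + (2 * p.2.1 + 2 * (p.2.2 : ℕ))) :=
  finFib_prod (finFib_nat 2 two_pos) finFib_S1

lemma cntQ1 : cnt (dQ r1) = geo 2 ^ 3 * (1 + X ^ 2) := by
  have h2 : cnt (fun p : ℕ × (ℕ × (ℕ × Fin 2)) =>
      2 * p.1 + (2 * p.2.1 + (2 * p.2.2.1 + 2 * (p.2.2.2 : ℕ)))) = geo 2 * cnt
      (fun p : ℕ × (ℕ × Fin 2) => 2 * p.1 + (2 * p.2.1 + 2 * (p.2.2 : ℕ))) :=
    cnt_prod (finFib_nat 2 two_pos) finFib_S2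
  have h1 : cnt (fun p : ℕ × (ℕ × Fin 2) => 2 * p.1 + (2 * p.2.1 + 2 * (p.2.2 : ℕ))) = geo 2 *
      cnt (fun p : ℕ × Fin 2 => 2 * p.1 + 2 * (p.2 : ℕ)) :=
    cnt_prod (finFib_nat 2 two_pos) finFib_S1
  have h0 : cnt (fun p : ℕ × Fin 2 => 2 * p.1 + 2 * (p.2 : ℕ)) = geo 2 *
      cnt (fun e : Fin 2 => 2 * (e : ℕ)) :=
    cnt_prod (finFib_nat 2 two_pos) finFib_S0
  have h3 : cnt (fun p : ℕ × (ℕ × (ℕ × Fin 2)) =>
      2 * p.1 + (2 * p.2.1 + (2 * p.2.2.1 + 2 * (p.2.2.2 : ℕ)))) = cnt (dQ r1) := by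
    let f : ℕ × (ℕ × (ℕ × Fin 2)) → Q r1 := fun p =>
      ⟨(![p.1, p.1, 2 * p.2.1 + p.2.2.2, 2 * p.2.2.1 + p.2.2.2],
        p.1 + p.2.1 + p.2.2.1 + p.2.2.2), fun i => by fin_cases i <;> rfl, by
        change p.1 + p.2.1 + p.2.2.1 + p.2.2.2 ≤ p.1 + p.1 + (2 * p.2.1 + p.2.2.2) +
          (2 * p.2.2.1 + p.2.2.2)
        omega, by
        right
        change 2 * (p.1 + p.2.1 + p.2.2.1 + p.2.2.2) = p.1 + p.1 + (2 * p.2.1 + p.2.2.2) +
          (2 * p.2.2.1 + p.2.2.2)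
        omega⟩
    have hf : Function.Bijective f := by
      constructor
      · rintro ⟨a, b, c, d⟩ ⟨a', b', c', d'⟩ h
        have h' := congrArg Prod.fst (congrArg Subtype.val h)
        have e0 : a = a' := congrFun h' 0
        have e1 : 2 * b + (d : ℕ) = 2 * b' + (d' : ℕ) := congrFun h' 2
        have e2 : 2 * c + (d : ℕ) = 2 * c' + (d' : ℕ) := congrFun h' 3
        have k1 := d.2
        have k2 := d'.2
        have hb : b = b' := by omega
        have hc : c = c' := by omega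
        have hd : d = d' := by omega
        subst e0 hb hc hd
        rfl
      · rintro ⟨⟨a, y⟩, h1, h2, h3⟩
        have i1 : a (r1⁻¹ 1) = a 1 := h1 1
        have j1 : r1⁻¹ 1 = 0 := by decide
        rw [j1] at i1
        have hs : Perm.sign r1 ≠ 1 := by decide
        have h3' := h3.resolve_left hs
        simp only at h3'
        refine ⟨(a 0, a 2 / 2, a 3 / 2, ⟨a 2 % 2, by omega⟩), Subtype.ext (Prod.ext ?_ ?_)⟩
        · ext i
          fin_cases i
          · rfl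
          · exact i1
          · change 2 * (a 2 / 2) + a 2 % 2 = a 2
            omega
          · change 2 * (a 3 / 2) + a 2 % 2 = a 3
            omega
        · change a 0 + a 2 / 2 + a 3 / 2 + a 2 % 2 = y
          omega
    refine cnt_congr (Equiv.ofBijective f hf) ?_
    rintro ⟨a, b, c, d⟩
    change a + a + (2 * b + (d : ℕ)) + (2 * c + (d : ℕ)) = 2 * a + (2 * b + (2 * c + 2 * (d : ℕ)))
    ring
  rw [← h3, h2, h1, h0, cnt_two]
  ring

end Pool.Agent.PermEhr
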