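import Pool.Agent.MP_769135_co.Series

set_option autoImplicit false

open PowerSeries Equiv

namespace Pool.Agent.PermEhr

lemma geo_mul (c : ℕ) (hc : 0 < c) : geo c * (1 - X ^ c) = 1 := cnt_nat c hc

lemma D_geo (c : ℕ) (hc : 0 < c) :
    PowerSeries.derivative ℤ (geo c) = (c : PowerSeries ℤ) * X ^ (c - 1) * geo c ^ 2 := by
  have h : geo c * (1 - X ^ c) = 1 := cnt_nat c hc
  have h2 := congrArg (PowerSeries.derivative ℤ) h
  rw [Derivation.leibniz, map_sub, Derivation.leibniz_pow, Derivation.map_one_eq_zero,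
    PowerSeries.derivative_X] at h2
  simp only [smul_eq_mul, nsmul_eq_mul, mul_one] at h2
  linear_combination (geo c) * h2 - (PowerSeries.derivative ℤ (geo c)) * h

/-- A power series with five coefficients. -/
noncomputable def tb (a b c d e : ℤ) : PowerSeries ℤ :=
  C a + C b * X + C c * X ^ 2 + C d * X ^ 3 + C e * X ^ 4

lemma coeff_tb (a b c d e : ℤ) (i : ℕ) : coeff i (tb a b c d e) =
    if i = 0 then a else if i = 1 then b else if i = 2 then c else if i = 3 then d else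
      if i = 4 then e else 0 := by
  simp only [tb, map_add, coeff_C_mul, coeff_X_pow, coeff_X, coeff_C]
  have hn : i = 0 ∨ i = 1 ∨ i = 2 ∨ i = 3 ∨ i = 4 ∨ 5 ≤ i := by omega
  rcases hn with rfl | rfl | rfl | rfl | rfl | hn
  · simp
  · simp
  · simp
  · simp
  · simp
  · rw [if_neg (by omega), if_neg (by omega), if_neg (by omega), if_neg (by omega),
      if_neg (by omega), if_neg (by omega), if_neg (by omega), if_neg (by omega),
      if_neg (by omega), if_neg (by omega)]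
    ring

lemma hs0 : hs 1 = tb 1 5 8 7 3 := by
  rw [hs, cntQ_even 1 (by decide), cntA0, pd0]
  have h := geo_mul 1 one_pos
  have hD := D_geo 1 one_pos
  rw [Derivation.leibniz, Derivation.leibniz_pow, hD, PowerSeries.derivative_X]
  generalize geo 1 = u at h
  simp only [smul_eq_mul, nsmul_eq_mul, mul_one, tb, map_one, map_ofNat, Polynomial.coe_pow,
    Polynomial.coe_sub, Polynomial.coe_one, Polynomial.coe_X, Units.val_one,
    Nat.cast_one, Nat.sub_self, pow_zero, one_mul, Nat.cast_ofNat, pow_one] at h ⊢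
  linear_combination (((1 - X) * ((u * (1 - X)) ^ 3 + (u * (1 - X)) ^ 2 + (u * (1 - X)) + 1)
    + 4 * X * ((u * (1 - X)) ^ 4 + (u * (1 - X)) ^ 3 + (u * (1 - X)) ^ 2 + (u * (1 - X)) + 1))
    * (1 + (X + X) + (X ^ 2 + X ^ 2) + X ^ 3)) * h

lemma hs1 : hs r1 = tb 1 1 2 1 1 := by
  rw [hs, cntQ1, pd1, sg1]
  have h := geo_mul 2 two_pos
  generalize geo 2 = u at h
  simp only [tb, map_one, map_ofNat, Polynomial.coe_pow, Polynomial.coe_mul,
    Polynomial.coe_sub, Polynomial.coe_one, Polynomial.coe_X, Units.val_neg, Units.val_one,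
    map_neg] at h ⊢
  linear_combination ((1 + X ^ 2) * (1 + X + X ^ 2) *
    ((u * (1 - X ^ 2)) ^ 2 + (u * (1 - X ^ 2)) + 1)) * h

lemma hs2 : hs r2 = tb 1 1 4 3 3 := by
  rw [hs, cntQ_even r2 sg2, cntA2, pd2, sg2]
  have h := geo_mul 2 two_pos
  have hD := D_geo 2 two_pos
  rw [Derivation.leibniz, Derivation.leibniz_pow, hD, PowerSeries.derivative_X]
  generalize geo 2 = u at h
  simp only [smul_eq_mul, nsmul_eq_mul, mul_one, tb, map_one, map_ofNat, Polynomial.coe_pow,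
    Polynomial.coe_sub, Polynomial.coe_one, Polynomial.coe_X, Units.val_one,
    Nat.cast_one, Nat.add_one_sub_one, pow_zero, one_mul, Nat.cast_ofNat, pow_one] at h ⊢
  linear_combination (((1 - X ^ 2) * ((u * (1 - X ^ 2)) + 1)
    + 4 * X ^ 2 * ((u * (1 - X ^ 2)) ^ 2 + (u * (1 - X ^ 2)) + 1)) * (1 + X + X ^ 2)) * h

lemma hs3 : hs r3 = tb 1 2 2 4 3 := by
  rw [hs, cntQ_even r3 sg3, cntA3, pd3, sg3]
  have h := geo_mul 3 three_pos
  have hD := D_geo 3 three_pos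
  have h' := geo_mul 1 one_pos
  have hD' := D_geo 1 one_pos
  rw [Derivation.leibniz, Derivation.leibniz, hD, hD', PowerSeries.derivative_X]
  generalize geo 3 = u at h
  generalize geo 1 = v at h'
  simp only [smul_eq_mul, nsmul_eq_mul, mul_one, tb, map_one, map_ofNat, Polynomial.coe_pow,
    Polynomial.coe_sub, Polynomial.coe_one, Polynomial.coe_X, Units.val_one, Polynomial.coe_mul,
    Nat.cast_one, Nat.sub_self, Nat.add_one_sub_one, pow_zero, one_mul, Nat.cast_ofNat, pow_one]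
    at h h' ⊢
  linear_combination ((v * (1 - X)) * (1 - X) * (1 + (X + X) + (X ^ 2 + X ^ 2) + X ^ 3)
      + (v * (1 - X)) ^ 2 * X * (1 + (X + X) + (X ^ 2 + X ^ 2) + X ^ 3) + 3 * X ^ 3 * (1 + X) * ((u * (1 - X ^ 3)) + 1) * (v * (1 - X))) * h
    + ((1 - X) * (1 + (X + X) + (X ^ 2 + X ^ 2) + X ^ 3) + ((v * (1 - X)) + 1) * X * (1 + (X + X) + (X ^ 2 + X ^ 2) + X ^ 3)
      + 3 * X ^ 3 * (1 + X)) * h'

lemma hs4 : hs r4 = tb 1 3 4 3 1 := by
  rw [hs, cntQ4, pd4, sg4]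
  have h := geo_mul 4 four_pos
  generalize geo 4 = u at h
  simp only [tb, map_one, map_ofNat, Polynomial.coe_pow, Polynomial.coe_mul,
    Polynomial.coe_sub, Polynomial.coe_one, Polynomial.coe_X, Units.val_neg, Units.val_one,
    map_neg] at h ⊢
  linear_combination ((1 + X) * (1 + (X + X) + (X ^ 2 + X ^ 2) + X ^ 3)) * h

/-- The number of fixed points. -/
def fx (g : S4) : ℤ := ((Finset.univ.filter fun i : Fin 4 => g i = i).card : ℤ)

/-- The six four-cycles. -/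
abbrev C6 : Type := {c : S4 // c ^ 4 = 1 ∧ c ^ 2 ≠ 1}

/-- Conjugation on the four-cycles. -/
def cj (g : S4) (c : C6) : C6 := ⟨g * c.1 * g⁻¹, by
  have h1 : (g * c.1 * g⁻¹) ^ 4 = g * c.1 ^ 4 * g⁻¹ := by
    rw [conj_pow]
  have h2 : (g * c.1 * g⁻¹) ^ 2 = g * c.1 ^ 2 * g⁻¹ := by
    rw [conj_pow]
  rw [h1, h2, c.2.1]
  refine ⟨by simp, fun h => c.2.2 ?_⟩
  have := congrArg (fun z => g⁻¹ * z * g) h
  simpa [mul_assoc] using this⟩

/-- The number of four-cycles fixed under conjugation. -/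
def f6 (g : S4) : ℤ := ((Finset.univ.filter fun c : C6 => cj g c = c).card : ℤ)

/-- The sign as an integer. -/
def sg (g : S4) : ℤ := (Perm.sign g : ℤ)

/-- The coefficients of the equivariant `h*`-polynomial. -/
def T (i : ℕ) (g : S4) : ℤ :=
  if i = 0 then 1 else if i = 1 then 2 + sg g * (fx g - 1) else if i = 2 then 2 + f6 g else
    if i = 3 then 3 + sg g * fx g else if i = 4 then 2 + sg g else 0

set_option maxRecDepth 100000 in
lemma inv0 : ∀ h : S4, sg (h * 1 * h⁻¹) = 1 ∧ fx (h * 1 * h⁻¹) = 4 ∧ f6 (h * 1 * h⁻¹) = 6 := by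
  decide

set_option maxRecDepth 100000 in
lemma inv1 : ∀ h : S4, sg (h * r1 * h⁻¹) = -1 ∧ fx (h * r1 * h⁻¹) = 2 ∧ f6 (h * r1 * h⁻¹) = 0 := by
  decide

set_option maxRecDepth 100000 in
lemma inv2 : ∀ h : S4, sg (h * r2 * h⁻¹) = 1 ∧ fx (h * r2 * h⁻¹) = 0 ∧ f6 (h * r2 * h⁻¹) = 2 := by
  decide

set_option maxRecDepth 100000 in
lemma inv3 : ∀ h : S4, sg (h * r3 * h⁻¹) = 1 ∧ fx (h * r3 * h⁻¹) = 1 ∧ f6 (h * r3 * h⁻¹) = 0 := by
  decide

set_option maxRecDepth 100000 in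
lemma inv4 : ∀ h : S4, sg (h * r4 * h⁻¹) = -1 ∧ fx (h * r4 * h⁻¹) = 0 ∧ f6 (h * r4 * h⁻¹) = 2 := by
  decide

/-- The coefficients of the `h*`-series. -/
lemma coeff_hs (g : S4) (i : ℕ) : coeff i (hs g) = T i g := by
  obtain ⟨h, hg⟩ := classes g
  rcases hg with rfl | rfl | rfl | rfl | rfl
  · obtain ⟨e1, e2, e3⟩ := inv0 h
    rw [hs_conj, hs0, coeff_tb, T, e1, e2, e3]
    norm_num
  · obtain ⟨e1, e2, e3⟩ := inv1 h
    rw [hs_conj, hs1, coeff_tb, T, e1, e2, e3]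
    norm_num
  · obtain ⟨e1, e2, e3⟩ := inv2 h
    rw [hs_conj, hs2, coeff_tb, T, e1, e2, e3]
    norm_num
  · obtain ⟨e1, e2, e3⟩ := inv3 h
    rw [hs_conj, hs3, coeff_tb, T, e1, e2, e3]
    norm_num
  · obtain ⟨e1, e2, e3⟩ := inv4 h
    rw [hs_conj, hs4, coeff_tb, T, e1, e2, e3]
    norm_num

end Pool.Agent.PermEhr
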